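import Mathlib
import Pool.Agent.H84.ZroupoidDefs
import Pool.Agent.H84.ZroupoidBA
import Pool.Agent.H84.ZroupoidZM
import Pool.Agent.H84.ZroupoidNot

/-!
# Full answer to Q1 of `MP_be65b5_al`

In the lattice `SubIZ` of all subvarieties of the variety `IZ` of implication zroupoids, the atom
`ZM` is neutral, and the atoms `SL` and `BA` are not neutral.
-/

set_option autoImplicit false

namespace Pool.Agent.Results.MP_be65b5_al.Neutrality

open Pool.Agent.H84.Zroupoid

/-- `ZM` is neutral; `SL` and `BA` are not. -/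
theorem result :
    IsNeutral (L := SubIZ) ⟨classZM, isSubvariety_ZM⟩ ∧
    ¬ IsNeutral (L := SubIZ) ⟨classSL, isSubvariety_SL⟩ ∧
    ¬ IsNeutral (L := SubIZ) ⟨classBA, isSubvariety_BA⟩ :=
  ⟨isNeutral_ZM, not_isNeutral_SL, not_isNeutral_BA⟩

end Pool.Agent.Results.MP_be65b5_al.Neutrality
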